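import Mathlib
import Pool.Agent.H63.MSDefs
import Pool.Agent.H71.MS.Defs
import Pool.Agent.H71.MS.Main

/-!
Two-sided numerical bounds for the constant `c = lim r ^ 2 * ms([0,1], r)`.
-/

set_option autoImplicit false

namespace Pool.Agent.Results.MP_3cf955_co.Bounds

open Pool.Agent.H63.MS Pool.Agent.H71.MS Filter Topology

/-- The limit `c` of `r ^ 2 * ms([0,1], r)` exists and `0.7648 ≤ c ≤ 0.81584`; moreover
`r ^ 2 * ms([0,1], r) ≥ 0.7648` for every `r ≥ 1` and `r ^ 2 * ms([0,1], r) ≤ 0.816` for every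
`r ≥ 300000`. -/
theorem result : ∃ c : ℝ,
    Tendsto (fun r : ℕ => (r : ℝ) ^ 2 * ms r) atTop (𝓝 c) ∧ 0.7648 ≤ c ∧ c ≤ 0.81584 ∧
    (∀ r : ℕ, 0 < r → 0.7648 ≤ (r : ℝ) ^ 2 * ms r) ∧
    ∀ r : ℕ, 300000 ≤ r → (r : ℝ) ^ 2 * ms r ≤ 0.816 :=
  ⟨sInf MixSet, ms_tendsto, cc_lower, cc_upper2,
    fun r hr => cc_lower.trans (mix_le_ms r hr), fun r hr => ms_upper r hr⟩

end Pool.Agent.Results.MP_3cf955_co.Bounds
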