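import Mathlib
import Pool.Agent.H63.MSDefs
import Pool.Agent.H71.MS.Defs
import Pool.Agent.H71.MS.Main
import Pool.Agent.H71.MS.Att

/-!
The constant `c = lim r ^ 2 * ms([0,1], r)` as the common value of a dual pair of extremal problems
for autoconvolutions, with finite approximations of explicit error.
-/

set_option autoImplicit false

namespace Pool.Agent.Results.MP_3cf955_co.Formula

open Pool.Agent.H63.MS Pool.Agent.H71.MS Filter Topology

/-- The limit `c` of `r ^ 2 * ms([0,1], r)` exists; `c` is the infimum of the `M` such that the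
constant `1` on `[0,1]` is a finite average of functions `g ≥ 0` with `g * g ≤ M`; dually, `c` is the
supremum over the probability densities `h` of the weighted autoconvolution constant of `h`; and `c`
is the limit of the values `cellConst n` of the discretised problem, `c ≤ cellConst n ≤ (1 + 3 / √n) c`
for every `n ≥ 1`, where the minimum `cellConst n` is attained. -/
theorem result : ∃ c : ℝ,
    Tendsto (fun r : ℕ => (r : ℝ) ^ 2 * ms r) atTop (𝓝 c) ∧
    c = sInf MixSet ∧
    c = sSup {a : ℝ | ∃ h, ProbDensity h ∧ a = autoConst h} ∧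
    ∀ n : ℕ, 0 < n → cellConst n ∈ Disc n ∧ c ≤ cellConst n ∧
      cellConst n ≤ (1 + 3 / √(n : ℝ)) * c :=
  ⟨sInf MixSet, ms_tendsto, rfl, duality,
    fun n hn => ⟨cell_attained n hn, mix_le_cell n hn, cell_bound n hn⟩⟩

end Pool.Agent.Results.MP_3cf955_co.Formula
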