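import Mathlib
import Pool.Agent.H63.MSDefs
import Pool.Agent.H71.MS.Defs
import Pool.Agent.H71.MS.Main
import Pool.Agent.H71.MS.MainB
import Pool.Agent.H71.MS.MainC

/-!
Explicit error terms in the chain `c ≤ r ^ 2 * ms([0,1], r) ≤ r ^ 2 * MS([n], r) / n`.
-/

set_option autoImplicit false

namespace Pool.Agent.Results.MP_3cf955_co.Rate

open Pool.Agent.H63.MS Pool.Agent.H71.MS Filter Topology

/-- The limit `c` of `r ^ 2 * ms([0,1], r)` exists and, for all `n, r ≥ 1`, with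
`x = r √(log (3 n r) / n)`: `c ≤ r ^ 2 ms([0,1], r) ≤ r ^ 2 MS([n], r) / n`, where
* `r ^ 2 ms([0,1], r) ≤ (1 + 6 / r ^ (1/3)) c`;
* `r ^ 2 MS([n], r) / n ≤ (1 + 12 / n ^ (1/3)) r ^ 2 ms([0,1], r) + 11 x + 5 x ^ 2`;
* `r ^ 2 MS([n], r) / n ≤ (1 + 6 / r ^ (1/3)) c + 10 (x + x ^ 2)`. -/
theorem result : ∃ c : ℝ,
    Tendsto (fun r : ℕ => (r : ℝ) ^ 2 * ms r) atTop (𝓝 c) ∧
    ∀ n r : ℕ, 0 < n → 0 < r → ∀ x : ℝ, x = (r : ℝ) * √(Real.log (3 * n * r) / n) →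
      c ≤ (r : ℝ) ^ 2 * ms r ∧
      (r : ℝ) ^ 2 * ms r ≤ (1 + 6 / (r : ℝ) ^ (1 / 3 : ℝ)) * c ∧
      (r : ℝ) ^ 2 * ms r ≤ (r : ℝ) ^ 2 * MSn n r / n ∧
      (r : ℝ) ^ 2 * MSn n r / n ≤
        (1 + 12 / (n : ℝ) ^ (1 / 3 : ℝ)) * ((r : ℝ) ^ 2 * ms r) + 11 * x + 5 * x ^ 2 ∧
      (r : ℝ) ^ 2 * MSn n r / n ≤ (1 + 6 / (r : ℝ) ^ (1 / 3 : ℝ)) * c + 10 * (x + x ^ 2) := by
  refine ⟨sInf MixSet, ms_tendsto, fun n r hn hr x hx => ⟨mix_le_ms r hr, ms_bound r hr, ?_, ?_,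
    dis_upper n r hn hr x hx⟩⟩
  · rw [mul_div_assoc]
    exact mul_le_mul_of_nonneg_left (ms_le_MSn n r hn hr) (by positivity)
  · have hr' : (0 : ℝ) < r := Nat.cast_pos.2 hr
    have hn' : (0 : ℝ) < n := Nat.cast_pos.2 hn
    have hL : 0 ≤ Real.log (3 * n * r) := by
      have := log_ge_one n r hn hr
      linarith
    have h1 := mul_le_mul_of_nonneg_left (fin_upper n r hn hr) (sq_nonneg (r : ℝ))
    have h2 : (r : ℝ) ^ 2 * (√(Real.log (3 * n * r) / n) / r) = x := by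
      rw [hx]
      field_simp
    have h3 : (r : ℝ) ^ 2 * (Real.log (3 * n * r) / n) = x ^ 2 := by
      rw [hx, mul_pow, Real.sq_sqrt (div_nonneg hL hn'.le)]
    have h4 : (r : ℝ) ^ 2 * ((1 + 12 / (n : ℝ) ^ (1 / 3 : ℝ)) * ms r +
        11 * √(Real.log (3 * n * r) / n) / r + 5 * Real.log (3 * n * r) / n) =
        (1 + 12 / (n : ℝ) ^ (1 / 3 : ℝ)) * ((r : ℝ) ^ 2 * ms r) +
          11 * ((r : ℝ) ^ 2 * (√(Real.log (3 * n * r) / n) / r)) +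
          5 * ((r : ℝ) ^ 2 * (Real.log (3 * n * r) / n)) := by ring
    rw [h4, h2, h3] at h1
    rwa [mul_div_assoc]

end Pool.Agent.Results.MP_3cf955_co.Rate
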